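import Pool.Agent.KS6_79.RK.K4d

/-!
# Edge colourings without rainbow `K_4`: the numbers for all graphs, up to exponentially small errors

`F s G` is the number of the `s`-edge colourings of `G` without a rainbow `K_4`.

* `6 ≤ s ≤ 11`. Uniformly in all graphs `G` with `n` vertices,
  `F s G = C(s, 5) 5 ^ e(G) + O(exp (- γ n) 5 ^ C(n, 2))`, and all but `exp (- γ n) 5 ^ C(n, 2)` of the
  colourings use at most five colours. So `F s K_n = (C(s, 5) + O(exp (- γ n))) 5 ^ C(n, 2)`, and every
  graph which is not complete has at most `1 / 5 + exp (- γ n)` times as many colourings as `K_n`.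
* `s ≥ 12`. The Turan graph has `s ^ t_3(n)` colourings, every other graph with `n` vertices has at
  most `1 / s` times as many, and a graph which is not 3-colourable has at most `exp (- γ n)` times as
  many.

The library has the extremal graphs (`ExtremalGraphs`), without any bound for the other graphs and
without the number of the colourings of `K_n`. The proof runs the counting of the library for
`S09889` (stability, and the stars of the vertices) with exponentially small errors and for all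
graphs instead of the extremal ones.
-/

set_option autoImplicit false

namespace Pool.Agent.Results.MP_ea05a2_co.ExactCounts

open Pool.Agent.KS6_79.RK

/-- The edge colouring `c` of `G` has no rainbow `K_4`: every four vertices that span a `K_4` in `G`
span two different edges of the same colour. -/
def RainbowFree {V : Type} {s : ℕ} (G : SimpleGraph V) (c : G.edgeSet → Fin s) : Prop :=
  ∀ S : Finset V, G.IsNClique 4 S →
    ∃ e f : G.edgeSet, e ≠ f ∧ (∀ v ∈ (e : Sym2 V), v ∈ S) ∧ (∀ v ∈ (f : Sym2 V), v ∈ S) ∧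
      c e = c f

/-- `F(G)`: the number of `s`-edge colourings of `G` without a rainbow `K_4`. -/
noncomputable def F {V : Type} (s : ℕ) (G : SimpleGraph V) : ℕ :=
  Nat.card {c : G.edgeSet → Fin s // RainbowFree G c}

/-- The edges inside a `4`-clique. -/
lemma ncard_edges {V : Type} (G : SimpleGraph V) (S : Finset V) (hS : G.IsNClique 4 S) :
    ({e : G.edgeSet | ∀ v ∈ (e : Sym2 V), v ∈ S} : Set G.edgeSet).ncard = 6 := by
  classical
  have h1 : ((Subtype.val : G.edgeSet → Sym2 V) ''
      {e : G.edgeSet | ∀ v ∈ (e : Sym2 V), v ∈ S}).ncard = 6 := by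
    have h2 : ((Subtype.val : G.edgeSet → Sym2 V) ''
      {e : G.edgeSet | ∀ v ∈ (e : Sym2 V), v ∈ S}) =
      ((S.offDiag.image Sym2.mk.uncurry : Finset (Sym2 V)) : Set (Sym2 V)) := by
      ext e
      induction e using Sym2.ind with
      | _ x y =>
        simp only [Set.mem_image, Subtype.exists, Finset.coe_image, Finset.mem_coe, Function.uncurry,
          Finset.mem_offDiag, Prod.exists]
        constructor
        · rintro ⟨a, ha, hv, hxy⟩
          subst hxy
          rw [SimpleGraph.mem_edgeSet] at ha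
          have hx := hv x (by simp)
          have hy := hv y (by simp)
          exact ⟨x, y, ⟨hx, hy, ha.ne⟩, rfl⟩
        · rintro ⟨a, b, ⟨ha, hb, hab⟩, h⟩
          have hadj : G.Adj a b := hS.isClique ha hb hab
          refine ⟨s(a, b), hadj, ?_, h⟩
          intro v hv
          have hv' : v ∈ s(a, b) := hv
          rw [Sym2.mem_iff] at hv'
          rcases hv' with rfl | rfl
          · exact ha
          · exact hb
    rw [h2, Set.ncard_coe_finset, Sym2.card_image_offDiag, hS.card_eq]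
    decide
  rwa [Subtype.val_injective.injOn.ncard_image] at h1

lemma rainbowFree_iff {n : ℕ} {s : ℕ} (G : SimpleGraph (Fin n)) (c : G.edgeSet → Fin s) :
    GoodC 4 6 G c ↔ RainbowFree G c := by
  classical
  apply forall_congr'
  intro S
  apply forall_congr'
  intro hS
  have h6 := ncard_edges G S hS
  set E : Set G.edgeSet := {e : G.edgeSet | ∀ v ∈ (e : Sym2 (Fin n)), v ∈ S} with hE
  have hfin : E.Finite := Set.finite_of_ncard_ne_zero (by rw [h6]; norm_num)
  have himg : {i : Fin s | ∃ e : G.edgeSet, (∀ v ∈ (e : Sym2 (Fin n)), v ∈ S) ∧ c e = i} =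
      c '' E := rfl
  rw [himg]
  constructor
  · intro h
    by_contra hcon
    push Not at hcon
    have hinj : Set.InjOn c E := by
      intro e he f hf hef
      by_contra hne
      exact hcon e f hne he hf hef
    rw [hinj.ncard_image, h6] at h
    exact lt_irrefl _ h
  · rintro ⟨e, f, hne, he, hf, hef⟩
    have hle : (c '' E).ncard ≤ E.ncard := Set.ncard_image_le hfin
    rcases lt_or_eq_of_le hle with h | h
    · rwa [h6] at h
    · exact absurd ((Set.ncard_image_iff hfin).1 h he hf hef) hne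

lemma F_eq' {n : ℕ} (s : ℕ) (G : SimpleGraph (Fin n)) :
    Pool.Agent.TH477.PA.F s 4 6 G = F s G :=
  Nat.card_congr (Equiv.subtypeEquivRight (rainbowFree_iff G))

lemma card_eq' {n : ℕ} (s : ℕ) (G : SimpleGraph (Fin n)) :
    Nat.card {c : G.edgeSet → Fin s // GoodC 4 6 G c ∧ 6 ≤ (Set.range c).ncard} =
      Nat.card {c : G.edgeSet → Fin s // RainbowFree G c ∧ 6 ≤ (Set.range c).ncard} :=
  Nat.card_congr (Equiv.subtypeEquivRight fun c => by rw [rainbowFree_iff])

/-- at most five colours -/
lemma F_few {n : ℕ} {s : ℕ} (h5 : s ≤ 5) (G : SimpleGraph (Fin n)) :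
    F s G = s ^ Nat.card G.edgeSet := by
  have h1 : Nat.card {c : G.edgeSet → Fin s // RainbowFree G c} =
      Nat.card (G.edgeSet → Fin s) := by
    apply Nat.card_congr
    apply Equiv.subtypeUnivEquiv
    intro c
    rw [← rainbowFree_iff]
    apply goodC_of_few
    refine (Set.ncard_le_ncard (Set.subset_univ _) (Set.toFinite _)).trans ?_
    rw [Set.ncard_univ, Nat.card_eq_fintype_card, Fintype.card_fin]
    exact h5
  unfold F
  rw [h1, Nat.card_fun, Nat.card_eq_fintype_card (α := Fin s), Fintype.card_fin]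

lemma F_pos {n : ℕ} {s : ℕ} (hs : 0 < s) (G : SimpleGraph (Fin n)) : 0 < F s G := by
  have h1 := le_card_good (r := s) (⊥ : SimpleGraph (Fin n))
  rw [← F_eq', Pool.Agent.KS6_79.RK.F_eq]
  have : Nonempty {c : G.edgeSet → Fin s // GoodC 4 6 G c} := by
    refine ⟨⟨fun _ => ⟨0, hs⟩, ?_⟩⟩
    apply goodC_of_few
    have h2 : Set.range (fun _ : G.edgeSet => (⟨0, hs⟩ : Fin s)) ⊆ {⟨0, hs⟩} := by
      rintro _ ⟨e, rfl⟩
      rfl
    have h3 := Set.ncard_le_ncard h2 (Set.toFinite _)
    rw [Set.ncard_singleton] at h3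
    omega
  exact Nat.card_pos

/-- a unique graph with the largest number -/
lemma unique_of_lt {n : ℕ} {s : ℕ} (P : SimpleGraph (Fin n) → Prop) (G0 : SimpleGraph (Fin n))
    (hP : ∀ G, P G → F s G = F s G0) (h : ∀ G, ¬ P G → F s G < F s G0)
    (G : SimpleGraph (Fin n)) : (∀ H : SimpleGraph (Fin n), F s H ≤ F s G) ↔ P G := by
  constructor
  · intro h1
    by_contra h2
    exact absurd (h1 G0) (not_le.2 (h G h2))
  · intro h1 H
    rw [hP G h1]
    by_cases h2 : P H
    · exact (hP H h2).le
    · exact (h H h2).le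

/-- **Numbers of edge colourings without rainbow `K_4`.** Let `s` be the number of colours.

(1) If `s ≤ 5`, all `s ^ e(G)` colourings of all graphs `G` are rainbow-`K_4`-free.

(2) If `6 ≤ s ≤ 11`, there is `γ > 0` such that for all large `n` and all graphs `G` with `n`
vertices: at most `exp (- γ n) 5 ^ C(n, 2)` rainbow-`K_4`-free colourings of `G` use six colours or
more; the number of all of them differs from `C(s, 5) 5 ^ e(G)` by at most `exp (- γ n) 5 ^ C(n, 2)`;
and if `G` is not complete, it has at most `1 / 5 + exp (- γ n)` times as many as `K_n`.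

(3) If `s ≥ 12`, there is `γ > 0` such that for all large `n` the Turan graph `T_3(n)` has
`s ^ e(T_3(n))` colourings, every graph `G` with `n` vertices which is not 3-colourable has at most
`exp (- γ n)` times as many rainbow-`K_4`-free colourings, and every `G` with `n` vertices which is
not isomorphic to `T_3(n)` has at most `1 / s` times as many.

(4) In particular, if `s ≥ 2` and `n` is large, the unique `n`-vertex graph with the largest number of
colourings is `K_n` for `s ≤ 11` and `T_3(n)` for `s ≥ 12`. -/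
theorem result (s : ℕ) :
    (s ≤ 5 → ∀ (n : ℕ) (G : SimpleGraph (Fin n)), F s G = s ^ Nat.card G.edgeSet) ∧
    (6 ≤ s → s ≤ 11 → ∃ γ : ℝ, 0 < γ ∧ ∃ n0 : ℕ, ∀ n, n0 ≤ n → ∀ G : SimpleGraph (Fin n),
      (Nat.card {c : G.edgeSet → Fin s // RainbowFree G c ∧ 6 ≤ (Set.range c).ncard} : ℝ) ≤
        Real.exp (-(γ * n)) * 5 ^ n.choose 2 ∧
      |(F s G : ℝ) - s.choose 5 * 5 ^ Nat.card G.edgeSet| ≤
        Real.exp (-(γ * n)) * 5 ^ n.choose 2 ∧
      (G ≠ ⊤ → (F s G : ℝ) ≤
        (1 / 5 + Real.exp (-(γ * n))) * F s (⊤ : SimpleGraph (Fin n)))) ∧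
    (12 ≤ s → ∃ γ : ℝ, 0 < γ ∧ ∃ n0 : ℕ, ∀ n, n0 ≤ n →
      F s (SimpleGraph.turanGraph n 3) = s ^ Nat.card (SimpleGraph.turanGraph n 3).edgeSet ∧
      ∀ G : SimpleGraph (Fin n),
        (¬ G.Colorable 3 →
          (F s G : ℝ) ≤ Real.exp (-(γ * n)) * F s (SimpleGraph.turanGraph n 3)) ∧
        (¬ Nonempty (G ≃g SimpleGraph.turanGraph n 3) →
          s * F s G ≤ F s (SimpleGraph.turanGraph n 3))) ∧
    (2 ≤ s → ∃ n0 : ℕ, ∀ n, n0 ≤ n → ∀ G : SimpleGraph (Fin n),
      ((∀ H : SimpleGraph (Fin n), F s H ≤ F s G) ↔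
        (s ≤ 11 ∧ G = ⊤) ∨ (12 ≤ s ∧ Nonempty (G ≃g SimpleGraph.turanGraph n 3)))) := by
  have P1 : s ≤ 5 → ∀ (n : ℕ) (G : SimpleGraph (Fin n)), F s G = s ^ Nat.card G.edgeSet :=
    fun h5 n G => F_few h5 G
  have P2 : 6 ≤ s → s ≤ 11 → ∃ γ : ℝ, 0 < γ ∧ ∃ n0 : ℕ, ∀ n, n0 ≤ n →
      ∀ G : SimpleGraph (Fin n),
      (Nat.card {c : G.edgeSet → Fin s // RainbowFree G c ∧ 6 ≤ (Set.range c).ncard} : ℝ) ≤
        Real.exp (-(γ * n)) * 5 ^ n.choose 2 ∧
      |(F s G : ℝ) - s.choose 5 * 5 ^ Nat.card G.edgeSet| ≤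
        Real.exp (-(γ * n)) * 5 ^ n.choose 2 ∧
      (G ≠ ⊤ → (F s G : ℝ) ≤
        (1 / 5 + Real.exp (-(γ * n))) * F s (⊤ : SimpleGraph (Fin n))) := by
    intro h6 h11
    obtain ⟨γ, hγ, n0, H⟩ := main_lo h6 h11
    refine ⟨γ, hγ, n0, fun n hn G => ?_⟩
    have h := H n hn G
    rw [F_eq', F_eq', card_eq'] at h
    exact h
  have P3 : 12 ≤ s → ∃ γ : ℝ, 0 < γ ∧ ∃ n0 : ℕ, ∀ n, n0 ≤ n →
      F s (SimpleGraph.turanGraph n 3) = s ^ Nat.card (SimpleGraph.turanGraph n 3).edgeSet ∧
      ∀ G : SimpleGraph (Fin n),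
        (¬ G.Colorable 3 →
          (F s G : ℝ) ≤ Real.exp (-(γ * n)) * F s (SimpleGraph.turanGraph n 3)) ∧
        (¬ Nonempty (G ≃g SimpleGraph.turanGraph n 3) →
          s * F s G ≤ F s (SimpleGraph.turanGraph n 3)) := by
    intro h12
    obtain ⟨γ, hγ, n0, H⟩ := main_hi h12
    refine ⟨γ, hγ, n0, fun n hn => ⟨?_, fun G => ?_⟩⟩
    · rw [← F_eq']
      exact F_free _ (turan_free n)
    · have h := H n hn G
      rw [F_eq', F_eq'] at h
      exact h
  refine ⟨P1, P2, P3, fun hs2 => ?_⟩
  have hs0 : 0 < s := by omega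
  rcases Nat.lt_or_ge s 12 with hs | hs
  · -- the complete graph
    have key : ∃ n0 : ℕ, ∀ n, n0 ≤ n → ∀ G : SimpleGraph (Fin n), G ≠ ⊤ →
        F s G < F s (⊤ : SimpleGraph (Fin n)) := by
      rcases Nat.lt_or_ge s 6 with h6 | h6
      · refine ⟨0, fun n _ G hG => ?_⟩
        rw [P1 (by omega) n G, P1 (by omega) n ⊤, card_top]
        exact Nat.pow_lt_pow_right (by omega) (card_lt_top G hG)
      · obtain ⟨γ, hγ, n0, H⟩ := P2 h6 (by omega)
        obtain ⟨n1, H1⟩ := small_exp 2 γ hγ
        refine ⟨max n0 n1, fun n hn G hG => ?_⟩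
        have h1 := (H n ((le_max_left _ _).trans hn) G).2.2 hG
        have h2 := H1 n ((le_max_right _ _).trans hn)
        have h3 : (0 : ℝ) < F s (⊤ : SimpleGraph (Fin n)) := by exact_mod_cast F_pos hs0 _
        have h4 : (F s G : ℝ) < F s (⊤ : SimpleGraph (Fin n)) := by nlinarith
        exact_mod_cast h4
    obtain ⟨n0, H⟩ := key
    refine ⟨n0, fun n hn G => ?_⟩
    rw [unique_of_lt (fun G => G = ⊤) ⊤ (fun G h => by rw [h]) (fun G h => H n hn G h) G]
    constructor
    · exact fun h => Or.inl ⟨by omega, h⟩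
    · rintro (h | h)
      · exact h.2
      · exact absurd h.1 (by omega)
  · obtain ⟨γ, hγ, n0, H⟩ := P3 hs
    refine ⟨n0, fun n hn G => ?_⟩
    rw [unique_of_lt (fun G => Nonempty (G ≃g SimpleGraph.turanGraph n 3))
      (SimpleGraph.turanGraph n 3) ?_ ?_ G]
    · constructor
      · exact fun h => Or.inr ⟨hs, h⟩
      · rintro (h | h)
        · exact absurd h.1 (by omega)
        · exact h.2
    · rintro G ⟨f⟩
      have h1 : G.CliqueFree 4 := SimpleGraph.CliqueFree.comap f.isContained (turan_free n)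
      rw [← F_eq', ← F_eq', F_free G h1, F_free _ (turan_free n)]
      congr 1
      exact Nat.card_congr f.mapEdgeSet
    · intro G h
      have h1 := ((H n hn).2 G).2 h
      have h2 := F_pos hs0 (SimpleGraph.turanGraph n 3)
      rcases Nat.lt_or_ge (F s G) (F s (SimpleGraph.turanGraph n 3)) with h3 | h3
      · exact h3
      · exfalso
        have h4 := Nat.mul_le_mul (show 12 ≤ s from hs) h3
        omega

end Pool.Agent.Results.MP_ea05a2_co.ExactCounts
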